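import Mathlib

set_option autoImplicit false
open MeasureTheory ProbabilityTheory Filter Topology
open scoped NNReal ENNReal

namespace Pool.Agent.Lib.MP_3ce60b_pr

/-- Cookie environments `ω z i`; only the values with `i ≥ 1` are used. -/
abbrev Env : Type := ℤ → ℕ → ℝ

/-- The list `[X n, ..., X 0]` of positions of the walk in the environment `ω` driven by the
coins `u`: from `x = X n`, visited `i` times so far, step right iff `u n < ω x i`. -/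
noncomputable def hist (ω : Env) (u : ℕ → unitInterval) : ℕ → List ℤ
  | 0 => [0]
  | n + 1 =>
      (if (u n : ℝ) < ω (hist ω u n).headI ((hist ω u n).count (hist ω u n).headI)
        then (hist ω u n).headI + 1 else (hist ω u n).headI - 1) :: hist ω u n

/-- Position `X n` of the excited random walk. -/
noncomputable def walk (ω : Env) (u : ℕ → unitInterval) (n : ℕ) : ℤ := (hist ω u n).headI

/-- The averaged law: environment of law `ρ` and independent i.i.d. uniform coins. -/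
noncomputable def annealed (ρ : Measure Env) : Measure (Env × (ℕ → unitInterval)) :=
  ρ.prod (Measure.infinitePi fun _ : ℕ => (volume : Measure unitInterval))

/-- (SE): the stacks are stationary and ergodic under the shift of `ℤ`. -/
def SE (ρ : Measure Env) : Prop := Ergodic (fun (ω : Env) (z : ℤ) => ω (z + 1)) ρ

/-- (POS₁). -/
def POS (ρ : Measure Env) : Prop := ∀ᵐ ω ∂ρ, ∀ z i, 1 ≤ i → 1 / 2 ≤ ω z i

/-- (UEL). -/
def UEL (ρ : Measure Env) : Prop :=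
  ∃ κ : ℝ, 0 < κ ∧ ∀ᵐ ω ∂ρ, ∀ z i, 1 ≤ i → κ ≤ ω z i ∧ ω z i ≤ 1 - κ

/-- (MOM): `E[N ε] < ∞` for every `ε > 0`. -/
def MOM (ρ : Measure Env) : Prop :=
  ∀ ε : ℝ, 0 < ε →
    ∫⁻ ω, (⨆ (i : ℕ) (_ : 1 ≤ i ∧ ε ≤ |ω 0 i - 1 / 2|), (i : ℝ≥0∞)) ∂ρ < ∞

/-- The drift parameter exists and equals `δ`. -/
def HasDrift (ρ : Measure Env) (δ : ℝ) : Prop :=
  (∀ᵐ ω ∂ρ, Summable fun i : ℕ => 2 * ω 0 (i + 1) - 1) ∧
  Integrable (fun ω : Env => ∑' i : ℕ, (2 * ω 0 (i + 1) - 1)) ρ ∧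
  ∫ ω, ∑' i : ℕ, (2 * ω 0 (i + 1) - 1) ∂ρ = δ

/-- Right-continuous with left limits. -/
def Cadlag (x : ℝ≥0 → ℝ) : Prop :=
  (∀ t, ContinuousWithinAt x (Set.Ici t) t) ∧ ∀ t, ∃ l, Tendsto x (𝓝[<] t) (𝓝 l)

/-- Convergence `x n → y` in the Skorokhod `J₁` topology of `D[0,∞)`. -/
def J1Tendsto (x : ℕ → ℝ≥0 → ℝ) (y : ℝ≥0 → ℝ) : Prop :=
  ∃ l : ℕ → (ℝ≥0 ≃o ℝ≥0),
    TendstoUniformly (fun n t => ((l n t : ℝ≥0) : ℝ)) (fun t => (t : ℝ)) atTop ∧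
    ∀ T : ℝ≥0, TendstoUniformlyOn (fun n t => x n (l n t)) y atTop (Set.Iic T)

/-- Weak convergence on `D[0,∞)` with `J₁`: `E F(Y n) → E F(Z)` for every bounded functional `F`
that is `J₁`-continuous on the cadlag paths. -/
def WeakJ1 {Ω Ω' : Type*} [MeasurableSpace Ω] [MeasurableSpace Ω'] (P : Measure Ω)
    (Y : ℕ → Ω → ℝ≥0 → ℝ) (Q : Measure Ω') (Z : Ω' → ℝ≥0 → ℝ) : Prop :=
  ∀ F : (ℝ≥0 → ℝ) → ℝ, (∃ C, ∀ x, |F x| ≤ C) →
    (∀ (x : ℕ → ℝ≥0 → ℝ) (y : ℝ≥0 → ℝ), (∀ n, Cadlag (x n)) → Cadlag y → J1Tendsto x y →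
      Tendsto (fun n => F (x n)) atTop (𝓝 (F y))) →
    Tendsto (fun n => ∫ a, F (Y n a) ∂P) atTop (𝓝 (∫ a, F (Z a) ∂Q))

end Pool.Agent.Lib.MP_3ce60b_pr
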