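import Pool.Agent.Lib.MP_3ce60b_pr.Defs

set_option autoImplicit false
open MeasureTheory ProbabilityTheory Filter Topology
open scoped NNReal ENNReal

namespace Pool.Agent.Lib.MP_3ce60b_pr

noncomputable def tl (k : ℕ) : ℝ := if k = 0 then 1 else 1 / (2 * √(1 + Real.log k))

noncomputable def ck (i : ℕ) : ℝ := tl (i - 1) - tl i

noncomputable def env0 : Env := fun _ i => 1 / 2 + ck i / 2

lemma sqrt_ge_one (k : ℕ) : 1 ≤ √(1 + Real.log k) := by
  apply Real.le_sqrt_of_sq_le
  have := Real.log_natCast_nonneg k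
  linarith

lemma tl_pos (k : ℕ) : 0 < tl k := by
  unfold tl
  split_ifs
  · norm_num
  · have := sqrt_ge_one k
    positivity

lemma tl_le_half {k : ℕ} (hk : k ≠ 0) : tl k ≤ 1 / 2 := by
  unfold tl
  rw [if_neg hk]
  have := sqrt_ge_one k
  apply one_div_le_one_div_of_le <;> linarith

lemma tl_zero : tl 0 = 1 := by simp [tl]

lemma tl_one : tl 1 = 1 / 2 := by simp [tl]

lemma tl_anti : Antitone tl := by
  intro a b hab
  by_cases ha : a = 0
  · subst ha
    by_cases hb : b = 0
    · subst hb; exact le_rfl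
    · rw [tl_zero]; linarith [tl_le_half hb]
  · have hb : b ≠ 0 := by omega
    unfold tl
    rw [if_neg ha, if_neg hb]
    have h1 := sqrt_ge_one a
    apply one_div_le_one_div_of_le
    · linarith
    · have : Real.log a ≤ Real.log b :=
        Real.log_le_log (by exact_mod_cast Nat.pos_of_ne_zero ha) (by exact_mod_cast hab)
      have := Real.sqrt_le_sqrt (show 1 + Real.log a ≤ 1 + Real.log b by linarith)
      linarith

lemma tl_le_one (k : ℕ) : tl k ≤ 1 := by
  rw [← tl_zero]; exact tl_anti (Nat.zero_le k)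

lemma ck_nonneg (i : ℕ) : 0 ≤ ck i := by
  unfold ck
  have := tl_anti (Nat.sub_le i 1)
  linarith

lemma ck_le_half (i : ℕ) : ck i ≤ 1 / 2 := by
  unfold ck
  rcases i with _ | _ | i
  · simp
  · simp only [Nat.zero_add, Nat.sub_self, tl_zero, tl_one]; norm_num
  · have h1 := tl_le_half (k := i + 1 + 1 - 1) (by omega)
    have := tl_pos (i + 1 + 1)
    linarith

lemma ck_succ (c : ℕ) : ck (c + 1) = tl c - tl (c + 1) := by simp [ck]

lemma tl_tendsto : Tendsto tl atTop (𝓝 0) := by
  have h1 : Tendsto (fun k : ℕ => 2 * √(1 + Real.log k)) atTop atTop := by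
    apply Tendsto.const_mul_atTop (by norm_num)
    apply Real.tendsto_sqrt_atTop.comp
    apply tendsto_atTop_add_const_left
    exact Real.tendsto_log_atTop.comp tendsto_natCast_atTop_atTop
  have h2 := h1.inv_tendsto_atTop
  refine h2.congr' ?_
  filter_upwards [eventually_ne_atTop 0] with k hk
  simp [tl, hk]

lemma hasSum_ck : HasSum (fun i : ℕ => ck (i + 1)) 1 := by
  rw [hasSum_iff_tendsto_nat_of_nonneg (fun i => ck_nonneg _)]
  have : ∀ n : ℕ, ∑ i ∈ Finset.range n, ck (i + 1) = 1 - tl n := by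
    intro n
    induction n with
    | zero => simp [tl_zero]
    | succ n ih => rw [Finset.sum_range_succ, ih, ck_succ]; ring
  simp_rw [this]
  simpa using tl_tendsto.const_sub 1

/-- total drift eaten along a history -/
noncomputable def dr : List ℤ → ℝ
  | [] => 0
  | x :: t => dr t + ck ((x :: t).count x)

noncomputable def mg (l : List ℤ) : ℝ := (l.headI : ℝ) - dr l.tail

def alive (L : ℝ) : List ℤ → Prop
  | [] => True
  | x :: t => |mg (x :: t)| < L ∧ alive L t

open Classical in
noncomputable def stp (L : ℝ) : List ℤ → ℝ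
  | [] => 0
  | x :: t => stp L t + if alive L t then mg (x :: t) - mg t else 0

lemma dr_nonneg : ∀ l, 0 ≤ dr l
  | [] => le_rfl
  | _ :: t => add_nonneg (dr_nonneg t) (ck_nonneg _)

lemma stp_alive (L : ℝ) : ∀ l, alive L l → stp L l = mg l
  | [], _ => by simp [stp, mg, dr]
  | x :: t, h => by
    have := stp_alive L t h.2
    simp only [stp, if_pos h.2, this]; ring

lemma stp_dead (L : ℝ) : ∀ l, ¬ alive L l → L ≤ |stp L l|
  | [], h => (h trivial).elim
  | x :: t, h => by
    by_cases ht : alive L t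
    · have h1 := stp_alive L t ht
      simp only [stp, if_pos ht, h1]
      have : ¬ |mg (x :: t)| < L := fun h' => h ⟨h', ht⟩
      rw [not_lt] at this
      rwa [add_sub_cancel]
    · simp only [stp, if_neg ht, add_zero]
      exact stp_dead L t ht

lemma dr_eq (A : Finset ℤ) : ∀ l : List ℤ, (∀ z ∈ l, z ∈ A) →
    dr l = ∑ z ∈ A, (1 - tl (l.count z))
  | [], _ => by simp [dr, tl_zero]
  | x :: t, h => by
    have ih := dr_eq A t (fun z hz => h z (List.mem_cons_of_mem _ hz))
    have hx : x ∈ A := h x List.mem_cons_self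
    rw [dr, ih, ← Finset.add_sum_erase A _ hx, ← Finset.add_sum_erase A _ hx]
    have : ∑ z ∈ A.erase x, (1 - tl ((x :: t).count z)) =
        ∑ z ∈ A.erase x, (1 - tl (t.count z)) := by
      apply Finset.sum_congr rfl
      intro z hz
      rw [List.count_cons_of_ne (Finset.ne_of_mem_erase hz).symm]
    rw [this, List.count_cons_self, ck_succ]; ring

lemma dr_le (A : Finset ℤ) (l : List ℤ) (h : ∀ z ∈ l, z ∈ A) (n : ℕ) (hn : l.length ≤ n) :
    dr l ≤ (A.card : ℝ) * (1 - tl n) := by
  rw [dr_eq A l h, ← nsmul_eq_mul, ← Finset.sum_const]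
  apply Finset.sum_le_sum
  intro z _
  have := tl_anti (List.count_le_length.trans hn : l.count z ≤ n)
  linarith

lemma alive_lower (L : ℝ) : ∀ l, alive L l → ∀ z ∈ l, -L < (z : ℝ)
  | [], _ => by simp
  | x :: t, h => by
    intro z hz
    rcases List.mem_cons.1 hz with rfl | hz
    · have h1 := (abs_lt.1 h.1).1
      have := dr_nonneg t
      simp only [mg, List.headI_cons, List.tail_cons] at h1
      linarith
    · exact alive_lower L t h.2 z hz

lemma alive_upper_aux (L : ℕ) (S : ℤ) (hS : 0 ≤ S) (n : ℕ) : ∀ l : List ℤ, alive L l →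
    (∀ z ∈ l, z ≤ S) → l.length ≤ n + 1 →
    ∀ z ∈ l, (z : ℝ) ≤ L + (S + L + 1) * (1 - tl n)
  | [], _, _, _ => by simp
  | x :: t, h, hl, hn => by
    intro z hz
    rcases List.mem_cons.1 hz with rfl | hz
    · have h1 := (abs_lt.1 h.1).2
      simp only [mg, List.headI_cons, List.tail_cons] at h1
      have h2 := dr_le (Finset.Icc (-(L : ℤ)) S) t (by
        intro w hw
        rw [Finset.mem_Icc]
        refine ⟨?_, hl w (List.mem_cons_of_mem _ hw)⟩
        have := alive_lower L t h.2 w hw
        have : ((-(L : ℤ) : ℤ) : ℝ) < w := by push_cast; exact this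
        exact_mod_cast this.le) n (by simpa using hn)
      have h3 : ((Finset.Icc (-(L : ℤ)) S).card : ℝ) = S + L + 1 := by
        rw [Int.card_Icc]
        have : (((S + 1 - -(L : ℤ)).toNat : ℤ) : ℝ) = S + L + 1 := by
          rw [Int.toNat_of_nonneg (by omega)]; push_cast; ring
        exact_mod_cast this
      rw [h3] at h2
      linarith
    · exact alive_upper_aux L S hS n t h.2 (fun w hw => hl w (List.mem_cons_of_mem _ hw))
        (by simp at hn; omega) z hz

lemma alive_upper (L : ℕ) (n : ℕ) (l : List ℤ) (h : alive L l) (h0 : (0 : ℤ) ∈ l)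
    (hn : l.length ≤ n + 1) : ∀ z ∈ l, (z : ℝ) ≤ (2 * L + 1) / tl n := by
  obtain ⟨S, hS, hmax⟩ := l.toFinset.exists_max_image id ⟨0, List.mem_toFinset.2 h0⟩
  have hmax' : ∀ z ∈ l, z ≤ S := fun z hz => hmax z (List.mem_toFinset.2 hz)
  have h1 := alive_upper_aux L S (hmax' 0 h0) n l h hmax' hn S (List.mem_toFinset.1 hS)
  intro z hz
  have h2 : (z : ℝ) ≤ S := by exact_mod_cast hmax' z hz
  refine h2.trans ?_
  rw [le_div_iff₀ (tl_pos n)]
  have h3 := tl_pos n
  have h4 : (0 : ℝ) ≤ L := Nat.cast_nonneg L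
  nlinarith

lemma hist_length (ω : Env) (u : ℕ → unitInterval) : ∀ n, (hist ω u n).length = n + 1
  | 0 => rfl
  | n + 1 => by simp [hist, hist_length ω u n]

lemma zero_mem_hist (ω : Env) (u : ℕ → unitInterval) : ∀ n, (0 : ℤ) ∈ hist ω u n
  | 0 => by simp [hist]
  | n + 1 => List.mem_cons_of_mem _ (zero_mem_hist ω u n)

lemma walk_mem_hist (ω : Env) (u : ℕ → unitInterval) (k : ℕ) :
    ∀ n, k ≤ n → walk ω u k ∈ hist ω u n := by
  intro n hn
  induction n, hn using Nat.le_induction with
  | base =>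
    unfold walk
    cases k with
    | zero => simp [hist]
    | succ k => simp [hist]
  | succ n _ ih => exact List.mem_cons_of_mem _ ih

lemma hist_update (ω : Env) (u : ℕ → unitInterval) (n : ℕ) (v : unitInterval) :
    ∀ k, k ≤ n → hist ω (Function.update u n v) k = hist ω u k
  | 0, _ => rfl
  | k + 1, h => by
    simp only [hist, hist_update ω u n v k (by omega),
      Function.update_of_ne (show k ≠ n by omega)]

end Pool.Agent.Lib.MP_3ce60b_pr
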