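import Pool.Agent.Lib.MP_3ce60b_pr.Prob

set_option autoImplicit false
open MeasureTheory ProbabilityTheory Filter Topology
open scoped NNReal ENNReal

namespace Pool.Agent.Lib.MP_3ce60b_pr

noncomputable def gg (y : ℝ) : ℝ := min (max y 0) 1

noncomputable def psi (t : ℝ≥0) : ℝ := max (1 - (t : ℝ)) 0

noncomputable def FF (x : ℝ≥0 → ℝ) : ℝ := ⨆ t : ℝ≥0, gg (x t) * psi t

lemma gg_nonneg (y : ℝ) : 0 ≤ gg y := le_min (le_max_right _ _) zero_le_one
lemma gg_le_one (y : ℝ) : gg y ≤ 1 := min_le_right _ _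
lemma gg_mono : Monotone gg := fun _ _ h => min_le_min_right _ (max_le_max_right _ h)
lemma psi_nonneg (t : ℝ≥0) : 0 ≤ psi t := le_max_right _ _
lemma psi_le_one (t : ℝ≥0) : psi t ≤ 1 := max_le (by simp) zero_le_one
lemma psi_anti : Antitone psi := fun a b h => by
  have : (a : ℝ) ≤ b := h
  exact max_le_max_right _ (by linarith)
lemma psi_eq_zero {t : ℝ≥0} (h : (1 : ℝ) ≤ t) : psi t = 0 := max_eq_right (by linarith)
lemma gg_le_add {a b e : ℝ} (he : 0 ≤ e) (h : a ≤ b + e) : gg a ≤ gg b + e := by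
  unfold gg
  simp only [min_def, max_def]
  split_ifs <;> linarith
lemma psi_le_add {a b : ℝ≥0} {e : ℝ} (he : 0 ≤ e) (h : (b : ℝ) ≤ a + e) : psi a ≤ psi b + e := by
  unfold psi
  simp only [max_def]
  split_ifs <;> linarith
lemma continuous_gg : Continuous gg := by unfold gg; fun_prop
lemma continuous_psi : Continuous psi := by unfold psi; fun_prop

lemma term_le_one (y : ℝ) (t : ℝ≥0) : gg y * psi t ≤ 1 :=
  mul_le_one₀ (gg_le_one _) (psi_nonneg _) (psi_le_one _)

lemma FF_bdd (x : ℝ≥0 → ℝ) : BddAbove (Set.range fun t => gg (x t) * psi t) :=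
  ⟨1, by rintro _ ⟨t, rfl⟩; exact term_le_one _ _⟩

lemma le_FF (x : ℝ≥0 → ℝ) (t : ℝ≥0) : gg (x t) * psi t ≤ FF x := le_ciSup (FF_bdd x) t

lemma FF_nonneg (x : ℝ≥0 → ℝ) : 0 ≤ FF x :=
  (mul_nonneg (gg_nonneg _) (psi_nonneg _)).trans (le_FF x 0)

lemma FF_le_one (x : ℝ≥0 → ℝ) : FF x ≤ 1 := ciSup_le fun _ => term_le_one _ _

lemma prod_le_add {a b c d e : ℝ} (_ha : 0 ≤ a) (hc : c ≤ 1) (hc0 : 0 ≤ c) (hb0 : 0 ≤ b)
    (hb : b ≤ 1) (he : 0 ≤ e) (h1 : a ≤ c + e) (h2 : b ≤ d + e) : a * b ≤ c * d + 2 * e := by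
  nlinarith

lemma FF_cont (x : ℕ → ℝ≥0 → ℝ) (y : ℝ≥0 → ℝ) (h : J1Tendsto x y) :
    Tendsto (fun n => FF (x n)) atTop (𝓝 (FF y)) := by
  obtain ⟨l, h1, h2⟩ := h
  rw [Metric.tendsto_nhds]
  intro ε hε
  set e := min (ε / 3) 1 with he
  have he0 : 0 < e := lt_min (by linarith) one_pos
  have he1 : e ≤ 1 := min_le_right _ _
  have he2 : e ≤ ε / 3 := min_le_left _ _
  rw [Metric.tendstoUniformly_iff] at h1
  have h3 := Metric.tendstoUniformlyOn_iff.1 (h2 2) e he0
  filter_upwards [h1 e he0, h3] with n hn1 hn2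
  have A : ∀ t, gg (x n (l n t)) * psi (l n t) ≤ gg (y t) * psi t + 2 * e ∧
      gg (y t) * psi t ≤ gg (x n (l n t)) * psi (l n t) + 2 * e := by
    intro t
    have a1 := hn1 t
    rw [Real.dist_eq, abs_lt] at a1
    by_cases ht : t ≤ 2
    · have a2 := hn2 t ht
      rw [Real.dist_eq, abs_lt] at a2
      constructor
      · exact prod_le_add (gg_nonneg _) (gg_le_one _) (gg_nonneg _) (psi_nonneg _) (psi_le_one _)
          he0.le (gg_le_add he0.le (by linarith)) (psi_le_add he0.le (by linarith))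
      · exact prod_le_add (gg_nonneg _) (gg_le_one _) (gg_nonneg _) (psi_nonneg _) (psi_le_one _)
          he0.le (gg_le_add he0.le (by linarith)) (psi_le_add he0.le (by linarith))
    · have ht' : (2 : ℝ) < t := by exact_mod_cast not_le.1 ht
      rw [psi_eq_zero (t := t) (by linarith), psi_eq_zero (t := l n t) (by linarith)]
      constructor <;> linarith
  have B1 : FF (x n) ≤ FF y + 2 * e := by
    apply ciSup_le
    intro s
    obtain ⟨t, rfl⟩ := (l n).surjective s
    linarith [(A t).1, le_FF y t]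
  have B2 : FF y ≤ FF (x n) + 2 * e := by
    apply ciSup_le
    intro t
    linarith [(A t).2, le_FF (x n) (l n t)]
  rw [Real.dist_eq, abs_lt]
  constructor <;> linarith

lemma FF_runmax (x : ℝ≥0 → ℝ) (hx : Continuous x) :
    FF (fun t => ⨆ s : Set.Iic t, x s) =
      ⨆ k : ℕ, gg (x (TopologicalSpace.denseSeq ℝ≥0 k)) * psi (TopologicalSpace.denseSeq ℝ≥0 k) := by
  have hc : ∀ t : ℝ≥0, IsCompact (Set.Iic t) := fun t => by
    rw [← Set.Icc_bot]; exact isCompact_Icc
  have hbdd : ∀ t : ℝ≥0, BddAbove (Set.range fun s : Set.Iic t => x s) := fun t => by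
    have := ((hc t).image hx).bddAbove
    rwa [Set.image_eq_range] at this
  have hR : BddAbove (Set.range fun k : ℕ =>
      gg (x (TopologicalSpace.denseSeq ℝ≥0 k)) * psi (TopologicalSpace.denseSeq ℝ≥0 k)) :=
    ⟨1, by rintro _ ⟨t, rfl⟩; exact term_le_one _ _⟩
  apply le_antisymm
  · apply ciSup_le
    intro t
    obtain ⟨s, hs, hmax⟩ := (hc t).exists_isMaxOn ⟨t, Set.self_mem_Iic⟩ hx.continuousOn
    have h1 : ⨆ s : Set.Iic t, x s ≤ x s := ciSup_le fun r => hmax r.2
    have h2 : gg (⨆ s : Set.Iic t, x s) * psi t ≤ gg (x s) * psi s :=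
      mul_le_mul (gg_mono h1) (psi_anti hs) (psi_nonneg _) (gg_nonneg _)
    refine h2.trans ?_
    refine (TopologicalSpace.denseRange_denseSeq ℝ≥0).induction_on s ?_ ?_
    · exact isClosed_le ((continuous_gg.comp hx).mul continuous_psi) continuous_const
    · intro k; exact le_ciSup hR k
  · apply ciSup_le
    intro k
    refine le_trans ?_ (le_FF _ (TopologicalSpace.denseSeq ℝ≥0 k))
    apply mul_le_mul_of_nonneg_right _ (psi_nonneg _)
    exact gg_mono (le_ciSup (hbdd _) ⟨_, Set.self_mem_Iic⟩)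

lemma brownian_pos {Ω : Type*} [MeasurableSpace Ω] (Q : Measure Ω) (B : ℝ≥0 → Ω → ℝ)
    (hB : IsBrownianReal B Q) :
    0 < ∫ a, FF (fun t => ⨆ s : Set.Iic t, B s a) ∂Q := by
  have : IsProbabilityMeasure Q := hB.isGaussianProcess.isProbabilityMeasure
  have hmeas : AEMeasurable (fun a => FF (fun t => ⨆ s : Set.Iic t, B s a)) Q := by
    have h1 : AEMeasurable (fun a => ⨆ k : ℕ, gg (B (TopologicalSpace.denseSeq ℝ≥0 k) a) *
        psi (TopologicalSpace.denseSeq ℝ≥0 k)) Q := by
      apply AEMeasurable.iSup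
      intro k
      exact (continuous_gg.measurable.comp_aemeasurable (hB.aemeasurable _)).mul_const _
    refine h1.congr ?_
    filter_upwards [hB.cont] with a ha
    exact (FF_runmax _ ha).symm
  have hint : Integrable (fun a => FF (fun t => ⨆ s : Set.Iic t, B s a)) Q := by
    refine Integrable.of_bound hmeas.aestronglyMeasurable 1 (ae_of_all _ fun a => ?_)
    rw [Real.norm_eq_abs, abs_of_nonneg (FF_nonneg _)]
    exact FF_le_one _
  have hlaw := hB.hasLaw_eval (1 / 2)
  have hg : Integrable gg (gaussianReal 0 (1 / 2)) := by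
    refine Integrable.of_bound continuous_gg.aestronglyMeasurable 1 (ae_of_all _ fun a => ?_)
    rw [Real.norm_eq_abs, abs_of_nonneg (gg_nonneg _)]
    exact gg_le_one _
  have hpos : 0 < ∫ y, gg y ∂(gaussianReal 0 (1 / 2)) := by
    rw [integral_pos_iff_support_of_nonneg gg_nonneg hg, pos_iff_ne_zero]
    intro h0
    have h1 := gaussianReal_absolutelyContinuous' 0 (v := 1 / 2) (by norm_num) h0
    have h2 : Set.Ioi (0 : ℝ) ⊆ Function.support gg := by
      intro y hy
      have : 0 < gg y := lt_min (lt_max_of_lt_left hy) one_pos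
      exact this.ne'
    have := measure_mono_null h2 h1
    simp at this
  have heq : ∫ a, gg (B (1 / 2) a) ∂Q = ∫ y, gg y ∂(gaussianReal 0 (1 / 2)) :=
    hlaw.integral_comp continuous_gg.aestronglyMeasurable
  have hle : ∫ a, gg (B (1 / 2) a) * psi (1 / 2) ∂Q ≤
      ∫ a, FF (fun t => ⨆ s : Set.Iic t, B s a) ∂Q := by
    apply integral_mono_of_nonneg (ae_of_all _ fun a => mul_nonneg (gg_nonneg _) (psi_nonneg _))
      hint
    filter_upwards [hB.cont] with a ha
    refine le_trans ?_ (le_FF _ (1 / 2))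
    apply mul_le_mul_of_nonneg_right _ (psi_nonneg _)
    have hc : IsCompact (Set.Iic (1 / 2 : ℝ≥0)) := by
      rw [← Set.Icc_bot]; exact isCompact_Icc
    have := (hc.image ha).bddAbove
    rw [Set.image_eq_range] at this
    exact gg_mono (le_ciSup this ⟨_, Set.self_mem_Iic⟩)
  rw [integral_mul_const, heq] at hle
  refine lt_of_lt_of_le (mul_pos hpos ?_) hle
  unfold psi
  norm_num

lemma FF_walk_le (L n : ℕ) (c : ℝ) (hc : 0 < c) (u : ℕ → unitInterval)
    (h : alive L (hist env0 u n)) :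
    FF (fun t => (walk env0 u ⌊(n : ℝ≥0) * t⌋₊ : ℝ) / c) ≤ (2 * L + 1) / tl n / c := by
  have hp : 0 ≤ (2 * L + 1) / tl n / c := by
    have := tl_pos n
    positivity
  apply ciSup_le
  intro t
  by_cases ht : (1 : ℝ) ≤ t
  · rw [psi_eq_zero ht, mul_zero]; exact hp
  · have h1 : ⌊(n : ℝ≥0) * t⌋₊ ≤ n := by
      apply Nat.floor_le_of_le
      have : t ≤ 1 := by
        have : (t : ℝ) ≤ 1 := (not_le.1 ht).le
        exact_mod_cast this
      exact mul_le_of_le_one_right (zero_le) this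
    have h2 := alive_upper L n _ h (zero_mem_hist _ _ _) (hist_length _ _ _).le _
      (walk_mem_hist env0 u _ n h1)
    calc _ ≤ gg ((walk env0 u ⌊(n : ℝ≥0) * t⌋₊ : ℝ) / c) :=
          mul_le_of_le_one_right (gg_nonneg _) (psi_le_one _)
      _ ≤ max ((walk env0 u ⌊(n : ℝ≥0) * t⌋₊ : ℝ) / c) 0 := min_le_left _ _
      _ ≤ _ := max_le (by gcongr) hp

lemma integral_FF_walk_le (L n : ℕ) (hL : 0 < L) (c : ℝ) (hc : 0 < c) :
    ∫ u, FF (fun t => (walk env0 u ⌊(n : ℝ≥0) * t⌋₊ : ℝ) / c) ∂coins ≤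
      (2 * L + 1) / tl n / c + n / L ^ 2 := by
  have hp : 0 ≤ (2 * L + 1) / tl n / c := by
    have := tl_pos n
    positivity
  have hs : MeasurableSet {u | ¬ alive L (hist env0 u n)} :=
    measurableSet_setOfPred.2 (measurable_hist_comp env0 n (fun l => ¬ alive L l))
  calc _ ≤ ∫ u, ((2 * L + 1) / tl n / c +
        Set.indicator {u | ¬ alive L (hist env0 u n)} (fun _ => (1 : ℝ)) u) ∂coins := by
        apply integral_mono_of_nonneg (ae_of_all _ fun a => FF_nonneg _)
          ((integrable_const _).add ((integrable_const _).indicator hs))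
        refine ae_of_all _ fun u => ?_
        by_cases h : alive L (hist env0 u n)
        · have := FF_walk_le L n c hc u h
          simp only [Pi.add_apply]
          rw [Set.indicator_of_notMem (by simpa using h)]
          linarith
        · simp only [Pi.add_apply]
          rw [Set.indicator_of_mem (by simpa using h)]
          linarith [FF_le_one (fun t => (walk env0 u ⌊(n : ℝ≥0) * t⌋₊ : ℝ) / c)]
    _ = (2 * L + 1) / tl n / c + coins.real {u | ¬ alive L (hist env0 u n)} := by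
        rw [integral_add (integrable_const _) ((integrable_const _).indicator hs),
          integral_indicator_const _ hs]
        simp
    _ ≤ _ := by
        gcongr
        exact ENNReal.toReal_le_of_le_ofReal (by positivity)
          (dead_prob L (by exact_mod_cast hL) n)

lemma aux_tendsto : Tendsto (fun n : ℕ => √(1 + Real.log n) / Real.log n) atTop (𝓝 0) := by
  have h0 : Tendsto (fun n : ℕ => Real.log n) atTop atTop :=
    Real.tendsto_log_atTop.comp tendsto_natCast_atTop_atTop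
  have h1 : Tendsto (fun t : ℝ => √(t⁻¹ ^ 2 + t⁻¹)) atTop (𝓝 0) := by
    have h := tendsto_inv_atTop_zero (𝕜 := ℝ)
    have := ((h.pow 2).add h).sqrt
    simpa using this
  refine (h1.comp h0).congr' ?_
  filter_upwards [h0.eventually_gt_atTop 0] with n hn
  simp only [Function.comp]
  rw [eq_div_iff hn.ne', ← Real.sqrt_sq hn.le, ← Real.sqrt_mul (by positivity), Real.sqrt_sq hn.le]
  congr 1
  field_simp

lemma integral_FF_walk_tendsto (b : ℝ) (hb : 0 < b) :
    Tendsto (fun n : ℕ => ∫ u, FF (fun t => (walk env0 u ⌊(n : ℝ≥0) * t⌋₊ : ℝ) /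
      (b * √(n : ℝ) * Real.log n)) ∂coins) atTop (𝓝 0) := by
  rw [Metric.tendsto_nhds]
  intro ε hε
  obtain ⟨K, hK⟩ := exists_nat_gt (2 / ε)
  have hK0 : (0 : ℝ) < K := lt_trans (by positivity) hK
  have hK1 : (1 : ℝ) ≤ K := by
    have : 0 < K := by exact_mod_cast hK0
    exact_mod_cast this
  have h1 : Tendsto (fun n : ℕ => (2 * (2 * K + 3) / b) * (√(1 + Real.log n) / Real.log n))
      atTop (𝓝 0) := by simpa using aux_tendsto.const_mul (2 * (2 * K + 3) / b)
  filter_upwards [h1.eventually (gt_mem_nhds (half_pos hε)), eventually_ge_atTop 2] with n hn hn2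
  have hn1 : (1 : ℝ) < n := by exact_mod_cast hn2
  have hlog : 0 < Real.log n := Real.log_pos hn1
  have hsq : 1 ≤ √(n : ℝ) := Real.le_sqrt_of_sq_le (by linarith)
  set L := ⌈K * √(n : ℝ)⌉₊ with hL
  have hL1 : K * √(n : ℝ) ≤ L := Nat.le_ceil _
  have hL2 : (L : ℝ) < K * √(n : ℝ) + 1 := Nat.ceil_lt_add_one (by positivity)
  have hL0 : 0 < L := Nat.ceil_pos.2 (by positivity)
  have h2 := integral_FF_walk_le L n hL0 (b * √(n : ℝ) * Real.log n) (by positivity)
  rw [Real.dist_eq, sub_zero, abs_of_nonneg (integral_nonneg fun _ => FF_nonneg _)]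
  refine h2.trans_lt ?_
  have h3 : (n : ℝ) / L ^ 2 < ε / 2 := by
    have h4 : (K * √(n : ℝ)) ^ 2 ≤ (L : ℝ) ^ 2 := by gcongr
    rw [mul_pow, Real.sq_sqrt (by linarith)] at h4
    rw [div_lt_iff₀ (by positivity)]
    rw [div_lt_iff₀ hε] at hK
    have h5 : (K : ℝ) ≤ K ^ 2 := by nlinarith
    have h6 : 2 < (K : ℝ) ^ 2 * ε := by nlinarith
    calc (n : ℝ) < ε / 2 * (K ^ 2 * n) := by nlinarith
      _ ≤ ε / 2 * (L : ℝ) ^ 2 := by gcongr
  have h5 : (2 * L + 1) / tl n / (b * √(n : ℝ) * Real.log n) ≤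
      (2 * (2 * K + 3) / b) * (√(1 + Real.log n) / Real.log n) := by
    have h6 : (2 * L + 1 : ℝ) ≤ (2 * K + 3) * √(n : ℝ) := by nlinarith
    have h7 : tl n = 1 / (2 * √(1 + Real.log n)) := by
      unfold tl; rw [if_neg (by omega)]
    have h8 := sqrt_ge_one n
    rw [h7]
    calc _ ≤ ((2 * K + 3) * √(n : ℝ)) / (1 / (2 * √(1 + Real.log n))) /
          (b * √(n : ℝ) * Real.log n) := by gcongr
      _ = _ := by field_simp
  linarith

theorem main :
    ∃ ρ : Measure Env, IsProbabilityMeasure ρ ∧ SE ρ ∧ POS ρ ∧ UEL ρ ∧ MOM ρ ∧ HasDrift ρ 1 ∧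
      ∀ b : ℝ, 0 < b → ∀ (Ω : Type*) [MeasurableSpace Ω] (Q : Measure Ω) (B : ℝ≥0 → Ω → ℝ),
        IsBrownianReal B Q →
        ¬ WeakJ1 (annealed ρ)
          (fun n a t => (walk a.1 a.2 ⌊(n : ℝ≥0) * t⌋₊ : ℝ) / (b * √(n : ℝ) * Real.log n))
          Q (fun a t => ⨆ s : Set.Iic t, B s a) := by
  have hsum : HasSum (fun i : ℕ => 2 * env0 0 (i + 1) - 1) 1 := by
    convert hasSum_ck using 2 with i
    simp only [env0]; ring
  refine ⟨Measure.dirac env0, inferInstance, ?_, ?_, ?_, ?_, ?_, ?_⟩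
  · have hm : Measurable (fun (ω : Env) (z : ℤ) => ω (z + 1)) := by fun_prop
    refine ⟨⟨hm, ?_⟩, ⟨?_⟩⟩
    · rw [Measure.map_dirac' hm]; rfl
    · intro s _ _
      rw [ae_dirac_eq, eventuallyConst_set]
      simpa using em (env0 ∈ s)
  · unfold POS
    rw [ae_dirac_eq, eventually_pure]
    intro z i _
    have := ck_nonneg i
    simp only [env0]; linarith
  · refine ⟨1 / 4, by norm_num, ?_⟩
    rw [ae_dirac_eq, eventually_pure]
    intro z i _
    have := ck_nonneg i
    have := ck_le_half i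
    simp only [env0]; constructor <;> linarith
  · intro ε hε
    rw [lintegral_dirac]
    have h1 := hasSum_ck.summable.tendsto_atTop_zero
    obtain ⟨N, hN⟩ := eventually_atTop.1 (h1.eventually (gt_mem_nhds hε))
    refine lt_of_le_of_lt (b := (N : ℝ≥0∞)) ?_ (ENNReal.natCast_lt_top N)
    refine iSup₂_le fun i hi => ?_
    by_contra hc
    have hc' : N < i := by exact_mod_cast not_le.1 hc
    have h2 := hN (i - 1) (by omega)
    rw [Nat.sub_add_cancel hi.1] at h2
    have h3 := hi.2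
    have := ck_nonneg i
    simp only [env0] at h3
    rw [abs_of_nonneg (by linarith)] at h3
    linarith
  · refine ⟨?_, ?_, ?_⟩
    · rw [ae_dirac_eq, eventually_pure]; exact hsum.summable
    · exact integrable_dirac (by simp)
    · rw [integral_dirac]; exact hsum.tsum_eq
  · intro b hb Ω _ Q B hB h
    have h1 := h FF ⟨1, fun x => by rw [abs_of_nonneg (FF_nonneg _)]; exact FF_le_one _⟩
      (fun x y _ _ hxy => FF_cont x y hxy)
    have h2 := integral_FF_walk_tendsto b hb
    unfold annealed at h1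
    simp_rw [Measure.dirac_prod, measurableEmbedding_prodMk_left _ |>.integral_map] at h1
    exact (brownian_pos Q B hB).ne' (tendsto_nhds_unique h1 h2)

end Pool.Agent.Lib.MP_3ce60b_pr
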