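import Pool.Agent.Lib.MP_3ce60b_pr.Det

set_option autoImplicit false
open MeasureTheory ProbabilityTheory Filter Topology
open scoped NNReal ENNReal

namespace Pool.Agent.Lib.MP_3ce60b_pr

noncomputable abbrev coins : Measure (ℕ → unitInterval) :=
  Measure.infinitePi fun _ : ℕ => (volume : Measure unitInterval)

lemma map_update (n : ℕ) :
    (coins.prod (volume : Measure unitInterval)).map
      (fun p : (ℕ → unitInterval) × unitInterval => Function.update p.1 n p.2) = coins := by
  apply Measure.eq_infinitePi
  intro s t ht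
  have hm : Measurable
      (fun p : (ℕ → unitInterval) × unitInterval => Function.update p.1 n p.2) :=
    measurable_update'
  rw [Measure.map_apply hm (MeasurableSet.pi s.countable_toSet fun i _ => ht i)]
  by_cases hn : n ∈ s
  · have : (fun p : (ℕ → unitInterval) × unitInterval => Function.update p.1 n p.2) ⁻¹'
        ((s : Set ℕ).pi t) = (((s.erase n : Finset ℕ) : Set ℕ).pi t) ×ˢ (t n) := by
      ext ⟨u, v⟩
      simp only [Set.mem_preimage, Set.mem_pi, Finset.mem_coe, Set.mem_prod, Finset.mem_erase]
      constructor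
      · intro h
        refine ⟨fun i hi => ?_, ?_⟩
        · have := h i hi.2
          rwa [Function.update_of_ne hi.1] at this
        · have := h n hn
          rwa [Function.update_self] at this
      · rintro ⟨h1, h2⟩ i hi
        by_cases hin : i = n
        · subst hin; rwa [Function.update_self]
        · rw [Function.update_of_ne hin]; exact h1 i ⟨hin, hi⟩
    rw [this, Measure.prod_prod, Measure.infinitePi_pi _ (fun i _ => ht i),
      ← Finset.mul_prod_erase s _ hn, mul_comm]
  · have : (fun p : (ℕ → unitInterval) × unitInterval => Function.update p.1 n p.2) ⁻¹'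
        ((s : Set ℕ).pi t) = ((s : Set ℕ).pi t) ×ˢ Set.univ := by
      ext ⟨u, v⟩
      simp only [Set.mem_preimage, Set.mem_pi, Finset.mem_coe, Set.mem_prod, Set.mem_univ,
        and_true]
      refine forall₂_congr fun i hi => ?_
      rw [Function.update_of_ne (by rintro rfl; exact hn hi)]
    rw [this, Measure.prod_prod, Measure.infinitePi_pi _ (fun i _ => ht i)]
    simp

lemma lintegral_update (n : ℕ) (f : (ℕ → unitInterval) → ℝ≥0∞) (hf : Measurable f) :
    ∫⁻ u, f u ∂coins = ∫⁻ u, (∫⁻ v, f (Function.update u n v)) ∂coins := by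
  have hm : Measurable
      (fun p : (ℕ → unitInterval) × unitInterval => Function.update p.1 n p.2) :=
    measurable_update'
  conv_lhs => rw [← map_update n]
  rw [lintegral_map hf hm]
  exact lintegral_prod _ (hf.comp hm).aemeasurable

lemma measurable_hist_comp (ω : Env) (n : ℕ) {β : Type*} [MeasurableSpace β] (g : List ℤ → β) :
    Measurable fun u => g (hist ω u n) := by
  let _ : MeasurableSpace (List ℤ) := ⊤
  have _ : MeasurableSingletonClass (List ℤ) := ⟨fun _ => trivial⟩
  have : ∀ n, Measurable fun u => hist ω u n := by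
    intro n
    induction n with
    | zero => exact measurable_const
    | succ n ih =>
      have h1 : Measurable fun p : List ℤ × unitInterval =>
          (if (p.2 : ℝ) < ω p.1.headI (p.1.count p.1.headI)
            then p.1.headI + 1 else p.1.headI - 1) :: p.1 := by
        apply measurable_from_prod_countable_right
        intro l
        have : Measurable fun v : unitInterval =>
            if (v : ℝ) < ω l.headI (l.count l.headI) then (l.headI + 1) :: l
              else (l.headI - 1) :: l := by
          apply Measurable.ite _ measurable_const measurable_const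
          exact measurableSet_lt measurable_subtype_coe measurable_const
        convert this using 2 with v
        split_ifs <;> rfl
      exact h1.comp (ih.prodMk (measurable_pi_apply n))
  exact measurable_from_top.comp (this n)

lemma vol_lt (p : ℝ) (h0 : 0 ≤ p) (h1 : p ≤ 1) :
    (volume : Measure unitInterval) {v | (v : ℝ) < p} = ENNReal.ofReal p := by
  have : {v : unitInterval | (v : ℝ) < p} = Set.Iio ⟨p, h0, h1⟩ := rfl
  rw [this, unitInterval.volume_Iio]

lemma vol_ge (p : ℝ) (h0 : 0 ≤ p) (h1 : p ≤ 1) :
    (volume : Measure unitInterval) {v | (v : ℝ) < p}ᶜ = ENNReal.ofReal (1 - p) := by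
  have : {v : unitInterval | (v : ℝ) < p}ᶜ = Set.Ici ⟨p, h0, h1⟩ := by
    ext v; simp [← Subtype.coe_le_coe]
  rw [this, unitInterval.volume_Ici]

lemma lintegral_two (p : ℝ) (h0 : 0 ≤ p) (h1 : p ≤ 1) (a b : ℝ≥0∞) :
    ∫⁻ v : unitInterval, (if (v : ℝ) < p then a else b) =
      a * ENNReal.ofReal p + b * ENNReal.ofReal (1 - p) := by
  have hs : MeasurableSet {v : unitInterval | (v : ℝ) < p} :=
    measurableSet_lt measurable_subtype_coe measurable_const
  rw [← lintegral_add_compl _ hs, ← vol_lt p h0 h1, ← vol_ge p h0 h1,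
    ← setLIntegral_const, ← setLIntegral_const]
  congr 1
  · exact setLIntegral_congr_fun hs fun v hv => if_pos hv
  · exact setLIntegral_congr_fun hs.compl fun v hv => if_neg hv

lemma hist_ne_nil (ω : Env) (u : ℕ → unitInterval) (n : ℕ) :
    ∃ x t, hist ω u n = x :: t := by
  cases n with
  | zero => exact ⟨_, _, rfl⟩
  | succ n => exact ⟨_, _, rfl⟩

lemma step_bound (L : ℝ) (x : ℤ) (t : List ℤ) :
    ∫⁻ v : unitInterval, ENNReal.ofReal (stp L ((if (v : ℝ) < env0 x ((x :: t).count x)
      then x + 1 else x - 1) :: x :: t) ^ 2) ≤ ENNReal.ofReal (stp L (x :: t) ^ 2) + 1 := by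
  classical
  set c := ck ((x :: t).count x) with hc
  have hc0 : 0 ≤ c := ck_nonneg _
  have hc1 : c ≤ 1 / 2 := ck_le_half _
  have hp : env0 x ((x :: t).count x) = 1 / 2 + c / 2 := rfl
  rw [hp]
  have key : ∀ y : ℤ, stp L (y :: x :: t) =
      stp L (x :: t) + if alive L (x :: t) then (y : ℝ) - x - c else 0 := by
    intro y
    rw [stp]
    congr 1
    split_ifs
    · simp only [mg, List.headI_cons, List.tail_cons, dr, ← hc]; ring
    · rfl
  have : ∀ v : unitInterval, ENNReal.ofReal (stp L ((if (v : ℝ) < 1 / 2 + c / 2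
      then x + 1 else x - 1) :: x :: t) ^ 2) = if (v : ℝ) < 1 / 2 + c / 2 then
        ENNReal.ofReal (stp L ((x + 1) :: x :: t) ^ 2)
        else ENNReal.ofReal (stp L ((x - 1) :: x :: t) ^ 2) := by
    intro v; split_ifs <;> rfl
  simp_rw [this]
  rw [lintegral_two _ (by linarith) (by linarith), ← ENNReal.ofReal_mul (sq_nonneg _),
    ← ENNReal.ofReal_mul (sq_nonneg _), ← ENNReal.ofReal_add
      (mul_nonneg (sq_nonneg _) (by linarith)) (mul_nonneg (sq_nonneg _) (by linarith)),
    ← ENNReal.ofReal_one, ← ENNReal.ofReal_add (sq_nonneg _) zero_le_one]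
  apply ENNReal.ofReal_le_ofReal
  rw [key, key]
  split_ifs
  · push_cast
    nlinarith [sq_nonneg c]
  · nlinarith

lemma second_moment (L : ℝ) (n : ℕ) :
    ∫⁻ u, ENNReal.ofReal (stp L (hist env0 u n) ^ 2) ∂coins ≤ n := by
  induction n with
  | zero => simp [hist, stp, mg, dr, alive]
  | succ n ih =>
    rw [lintegral_update n _ (measurable_hist_comp env0 (n + 1)
      (fun l => ENNReal.ofReal (stp L l ^ 2)))]
    calc ∫⁻ u, (∫⁻ v, ENNReal.ofReal (stp L (hist env0 (Function.update u n v) (n + 1)) ^ 2))
          ∂coins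
        ≤ ∫⁻ u, (ENNReal.ofReal (stp L (hist env0 u n) ^ 2) + 1) ∂coins := by
          apply lintegral_mono
          intro u
          obtain ⟨x, t, hxt⟩ := hist_ne_nil env0 u n
          simp only [hist, hist_update env0 u n _ n le_rfl, Function.update_self, hxt,
            List.headI_cons]
          exact step_bound L x t
      _ ≤ n + 1 := by
          rw [lintegral_add_right _ measurable_const]
          simp only [lintegral_const, measure_univ, mul_one]
          gcongr
      _ = ((n + 1 : ℕ) : ℝ≥0∞) := by push_cast; rfl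

lemma dead_prob (L : ℝ) (hL : 0 < L) (n : ℕ) :
    coins {u | ¬ alive L (hist env0 u n)} ≤ ENNReal.ofReal (n / L ^ 2) := by
  have h1 := mul_meas_ge_le_lintegral (μ := coins) (measurable_hist_comp env0 n
      (fun l => ENNReal.ofReal (stp L l ^ 2))) (ENNReal.ofReal (L ^ 2))
  have h2 : coins {u | ¬ alive L (hist env0 u n)} ≤
      coins {u | ENNReal.ofReal (L ^ 2) ≤ ENNReal.ofReal (stp L (hist env0 u n) ^ 2)} := by
    apply measure_mono
    intro u hu
    apply ENNReal.ofReal_le_ofReal
    have := stp_dead L _ hu
    rw [← sq_abs (stp L _)]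
    exact pow_le_pow_left₀ hL.le this 2
  have h3 := h1.trans (second_moment L n)
  rw [ENNReal.ofReal_div_of_pos (by positivity), ENNReal.ofReal_natCast,
    ENNReal.le_div_iff_mul_le (Or.inl (by simpa using hL.ne')) (Or.inl ENNReal.ofReal_ne_top),
    mul_comm]
  exact le_trans (by gcongr) h3

end Pool.Agent.Lib.MP_3ce60b_pr
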